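import Pool.Agent.Helper95.RP.St

/-!
# Project RP: module XL (n log n)
-/

set_option autoImplicit false

namespace Pool.Agent.Helper4.RP

open Pool.Agent.Helper95.RP Finset
open scoped Classical

theorem hXL : XL := by
  have mono : ∀ a b : ℕ, a ≤ b → (a : ℝ) * Real.log (a : ℝ) ≤ (b : ℝ) * Real.log (b : ℝ) := by
    intro a b hab
    rcases Nat.eq_zero_or_pos a with ha | ha
    · subst ha
      have : 0 ≤ (b : ℝ) * Real.log (b : ℝ) :=
        mul_nonneg (Nat.cast_nonneg _) (Real.log_natCast_nonneg b)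
      simpa using this
    · have h1 : (a : ℝ) ≤ (b : ℝ) := by exact_mod_cast hab
      have h2 : (0 : ℝ) < (a : ℝ) := by exact_mod_cast ha
      have h3 : Real.log (a : ℝ) ≤ Real.log (b : ℝ) := Real.log_le_log h2 h1
      exact mul_le_mul h1 h3 (Real.log_natCast_nonneg a) (Nat.cast_nonneg _)
  refine ⟨mono, fun x y c => ?_⟩
  refine le_trans ?_ (mono (x + y) (x + y + c) (by omega))
  rcases Nat.eq_zero_or_pos x with hx | hx
  · subst hx
    simp
  rcases Nat.eq_zero_or_pos y with hy | hy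
  · subst hy
    simp
  have key : ∀ x y : ℕ, 0 < x → 0 < y → x ≤ y →
      (x : ℝ) * Real.log (x : ℝ) + (y : ℝ) * Real.log (y : ℝ) + (x : ℝ) * Real.log 2 ≤
        ((x + y : ℕ) : ℝ) * Real.log ((x + y : ℕ) : ℝ) := by
    intro x y hx hy hxy
    have hx' : (0 : ℝ) < (x : ℝ) := by exact_mod_cast hx
    have hy' : (0 : ℝ) < (y : ℝ) := by exact_mod_cast hy
    have hxy' : (x : ℝ) ≤ (y : ℝ) := by exact_mod_cast hxy
    push_cast
    have h1 : Real.log (x : ℝ) + Real.log 2 ≤ Real.log ((x : ℝ) + (y : ℝ)) := by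
      rw [← Real.log_mul hx'.ne' (by norm_num)]
      exact Real.log_le_log (by positivity) (by linarith)
    have h2 : Real.log (y : ℝ) ≤ Real.log ((x : ℝ) + (y : ℝ)) :=
      Real.log_le_log hy' (by linarith)
    nlinarith [mul_le_mul_of_nonneg_left h1 hx'.le, mul_le_mul_of_nonneg_left h2 hy'.le]
  rcases le_total x y with hxy | hxy
  · rw [min_eq_left hxy]
    exact key x y hx hy hxy
  · rw [min_eq_right hxy]
    have := key y x hy hx hxy
    rw [add_comm y x] at this
    linarith

end Pool.Agent.Helper4.RP
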